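import Pool.Agent.K1H77.CG.Stm

set_option autoImplicit false

/-!
# CG1, CG2: the numbers of fixed point free involutions, also with a prescribed part
-/

open Finset

namespace Pool.Agent.K1H33.CG

open Pool.Agent.K1H77.CG

variable {α : Type}

/-- `g` on `F` and `M'` on the complement of `F` -/
def gl [DecidableEq α] (F : Finset α) (g : α → α) (M' : Equiv.Perm {x // x ∉ F}) (x : α) : α :=
  if h : x ∈ F then g x else (M' ⟨x, h⟩ : {x // x ∉ F})

theorem gl_in [DecidableEq α] {F : Finset α} {g : α → α} {M' : Equiv.Perm {x // x ∉ F}} {x : α}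
    (h : x ∈ F) : gl F g M' x = g x := dif_pos h

theorem gl_out [DecidableEq α] {F : Finset α} {g : α → α} {M' : Equiv.Perm {x // x ∉ F}} {x : α}
    (h : x ∉ F) : gl F g M' x = (M' ⟨x, h⟩ : {x // x ∉ F}) := dif_neg h

theorem gl_inv [DecidableEq α] {F : Finset α} {g : α → α} {M' : Equiv.Perm {x // x ∉ F}}
    (h1 : ∀ x ∈ F, g x ∈ F) (h2 : ∀ x ∈ F, g (g x) = x) (hM : ∀ x, M' (M' x) = x) :
    Function.Involutive (gl F g M') := by
  intro x
  by_cases hx : x ∈ F
  · rw [gl_in hx, gl_in (h1 x hx), h2 x hx]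
  · rw [gl_out hx, gl_out (M' ⟨x, hx⟩).2]
    have h3 : M' ⟨(M' ⟨x, hx⟩ : {x // x ∉ F}), (M' ⟨x, hx⟩).2⟩ = ⟨x, hx⟩ := hM ⟨x, hx⟩
    rw [h3]

theorem closed_iff {F : Finset α} {M : Equiv.Perm α} (hM : ∀ x, M (M x) = x)
    (h : ∀ x ∈ F, M x ∈ F) (x : α) : M x ∈ F ↔ x ∈ F := by
  refine ⟨fun h1 => ?_, h x⟩
  have h2 := h _ h1
  rwa [hM] at h2

open Classical in
/-- restriction to the complement of a closed set -/
theorem card_pres [Fintype α] [DecidableEq α] (F : Finset α) (g : α → α)
    (h1 : ∀ x ∈ F, g x ∈ F) (h2 : ∀ x ∈ F, g (g x) = x) (h3 : ∀ x ∈ F, g x ≠ x) :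
    ((Mat α).filter (fun M => ∀ x ∈ F, M x = g x)).card = (Mat {x // x ∉ F}).card := by
  have hc : ∀ M ∈ (Mat α).filter (fun M => ∀ x ∈ F, M x = g x), ∀ x, M x ∉ F ↔ x ∉ F := by
    intro M hM x
    rw [mem_filter, mem_Mat] at hM
    exact not_congr (closed_iff hM.1.1 (fun x hx => by rw [hM.2 x hx]; exact h1 x hx) x)
  refine Finset.card_bij' (fun M hM => M.subtypePerm (hc M hM))
    (fun M' hM' => (gl_inv (M' := M') h1 h2 (mem_Mat.1 hM').1).toPerm) ?_ ?_ ?_ ?_
  · intro M hM
    rw [mem_filter, mem_Mat] at hM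
    rw [mem_Mat]
    refine ⟨fun x => ?_, fun x hx => ?_⟩
    · apply Subtype.ext
      exact hM.1.1 x.1
    · exact hM.1.2 x.1 (congrArg Subtype.val hx)
  · intro M' hM'
    rw [mem_Mat] at hM'
    rw [mem_filter, mem_Mat]
    refine ⟨⟨fun x => gl_inv h1 h2 hM'.1 x, fun x => ?_⟩, fun x hx => gl_in hx⟩
    change gl F g M' x ≠ x
    by_cases hx : x ∈ F
    · rw [gl_in hx]
      exact h3 x hx
    · rw [gl_out hx]
      intro h4
      exact hM'.2 ⟨x, hx⟩ (Subtype.ext h4)
  · intro M hM
    ext x
    change gl F g (M.subtypePerm (hc M hM)) x = M x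
    rw [mem_filter] at hM
    by_cases hx : x ∈ F
    · rw [gl_in hx, hM.2 x hx]
    · rw [gl_out hx]
      rfl
  · intro M' hM'
    ext x
    change gl F g M' x.1 = (M' x).1
    rw [gl_out x.2]

theorem card_aux (n : ℕ) : ∀ (α : Type) [Fintype α] [DecidableEq α], Fintype.card α = n →
    (Mat α).card = fm n := by
  classical
  induction n using Nat.strong_induction_on with
  | _ n ih =>
    intro α _ _ hn
    rcases n with _ | _ | n
    · have : IsEmpty α := Fintype.card_eq_zero_iff.1 hn
      have h : Mat α = univ := by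
        ext M
        simp only [mem_Mat, mem_univ, iff_true]
        exact ⟨fun x => isEmptyElim x, fun x => isEmptyElim x⟩
      rw [h, card_univ, Fintype.card_perm, hn]
      rfl
    · have h : Mat α = ∅ := by
        ext M
        simp only [mem_Mat, notMem_empty, iff_false]
        intro hM
        obtain ⟨x, hx⟩ := Fintype.card_eq_one_iff.1 hn
        exact hM.2 x (hx _)
      rw [h]
      rfl
    · have hne : Nonempty α := Fintype.card_pos_iff.1 (by omega)
      obtain ⟨x₀⟩ := hne
      have h0 : ∀ M ∈ Mat α, M x₀ ∈ univ.erase x₀ := by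
        intro M hM
        rw [mem_erase]
        exact ⟨(mem_Mat.1 hM).2 x₀, mem_univ _⟩
      rw [Finset.card_eq_sum_card_fiberwise (f := fun M : Equiv.Perm α => M x₀)
        (t := univ.erase x₀) h0]
      have h1 : ∀ y ∈ univ.erase x₀, ((Mat α).filter (fun M => M x₀ = y)).card = fm n := by
        intro y hy
        have hy0 : y ≠ x₀ := (mem_erase.1 hy).1
        have h2 : (Mat α).filter (fun M => M x₀ = y) =
            (Mat α).filter (fun M => ∀ x ∈ ({x₀, y} : Finset α), M x = Equiv.swap x₀ y x) := by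
          apply filter_congr
          intro M hM
          rw [mem_Mat] at hM
          constructor
          · intro h x hx
            rw [mem_insert, mem_singleton] at hx
            rcases hx with rfl | rfl
            · rw [Equiv.swap_apply_left, h]
            · rw [Equiv.swap_apply_right, ← h, hM.1]
          · intro h
            rw [h x₀ (mem_insert_self _ _), Equiv.swap_apply_left]
        rw [h2, card_pres]
        · refine ih n (by omega) _ ?_
          have h5 : Fintype.card {x // x ∉ ({x₀, y} : Finset α)} =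
              Fintype.card α - ({x₀, y} : Finset α).card := by
            rw [Fintype.card_subtype_compl (fun x => x ∈ ({x₀, y} : Finset α)), Fintype.card_coe]
          rw [h5, card_pair hy0.symm, hn]
          omega
        · intro x hx
          rw [mem_insert, mem_singleton] at hx
          rcases hx with rfl | rfl
          · rw [Equiv.swap_apply_left]; simp
          · rw [Equiv.swap_apply_right]; simp
        · intro x _
          exact Equiv.swap_apply_self x₀ y x
        · intro x hx
          rw [mem_insert, mem_singleton] at hx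
          rcases hx with rfl | rfl
          · rw [Equiv.swap_apply_left]; exact hy0
          · rw [Equiv.swap_apply_right]; exact hy0.symm
      rw [sum_congr rfl h1, sum_const, card_erase_of_mem (mem_univ _), card_univ, hn, smul_eq_mul]
      rfl

theorem t_CARD : S_CARD := fun α _ _ => card_aux _ α rfl

theorem card_out [Fintype α] [DecidableEq α] (F : Finset α) :
    Fintype.card {x // x ∉ F} = Fintype.card α - F.card := by
  rw [Fintype.card_subtype_compl (fun x => x ∈ F), Fintype.card_coe]

theorem t_PRES : S_PRES := by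
  intro α _ _ F g h1 h2 h3
  rw [card_pres F g h1 h2 h3, t_CARD, card_out]

theorem t_CLOS : S_CLOS := by
  classical
  intro α _ _ F
  have e1 : fm F.card = (Mat {x // x ∈ F}).card := by rw [t_CARD, Fintype.card_coe]
  have e2 : fm (Fintype.card α - F.card) = (Mat {x // x ∉ F}).card := by rw [t_CARD, card_out]
  rw [e1, e2, ← card_product]
  have hc : ∀ M : Equiv.Perm α, M ∈ (Mat α).filter (fun M => ∀ x ∈ F, M x ∈ F) →
      ∀ x, M x ∈ F ↔ x ∈ F := by
    intro M hM x
    rw [mem_filter, mem_Mat] at hM
    exact closed_iff hM.1.1 hM.2 x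
  rw [← Finset.card_attach]
  refine Finset.card_le_card_of_injOn (fun M => (M.1.subtypePerm (hc M.1 M.2),
    M.1.subtypePerm (fun x => not_congr (hc M.1 M.2 x)))) ?_ ?_
  · rintro ⟨M, hM⟩ -
    have hM' := hM
    rw [mem_filter, mem_Mat] at hM'
    rw [Finset.mem_coe, mem_product, mem_Mat, mem_Mat]
    refine ⟨⟨fun x => Subtype.ext (hM'.1.1 x.1), fun x hx => ?_⟩,
      ⟨fun x => Subtype.ext (hM'.1.1 x.1), fun x hx => ?_⟩⟩
    · exact hM'.1.2 x.1 (congrArg Subtype.val hx)
    · exact hM'.1.2 x.1 (congrArg Subtype.val hx)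
  · rintro ⟨M, hM⟩ - ⟨N, hN⟩ - h
    apply Subtype.ext
    ext x
    have h1 := congrArg Prod.fst h
    have h2 := congrArg Prod.snd h
    by_cases hx : x ∈ F
    · exact congrArg Subtype.val (DFunLike.congr_fun h1 ⟨x, hx⟩)
    · exact congrArg Subtype.val (DFunLike.congr_fun h2 ⟨x, hx⟩)

end Pool.Agent.K1H33.CG
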