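import Pool.Agent.K1H77.CG.Stm

set_option autoImplicit false

/-!
# CG6: first moment of the number of cycles, pairs of disjoint cycles
-/

open Finset Filter Topology

namespace Pool.Agent.K1H33.CG

open Pool.Agent.K1H77.CG

section general

variable {ι : Type} [Fintype ι] {n : ℕ}

/-- good data -/
def Good (c : (ι → Fin n) × (ι → Fin 3) × (ι → Fin 3)) : Prop :=
  Function.Injective c.1 ∧ ∀ i, c.2.1 i ≠ c.2.2 i

/-- the number of matchings with given edges -/
theorem card_given (hP : S_PRES) (s : Equiv.Perm ι)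
    (c : (ι → Fin n) × (ι → Fin 3) × (ι → Fin 3)) (hc : Good c) (T : Finset (Equiv.Perm (HE n)))
    (hT : ∀ M, M ∈ T ↔ M ∈ Mat (HE n) ∧ ∀ i, M (c.1 i, c.2.2 i) = (c.1 (s i), c.2.1 (s i))) :
    T.card = fm (3 * n - 2 * Fintype.card ι) := by
  classical
  obtain ⟨v, a, b⟩ := c
  obtain ⟨hv, hab⟩ := hc
  dsimp only at hv hab hT
  obtain ⟨out, hout⟩ : ∃ out : ι → HE n, out = fun i => (v i, b i) := ⟨_, rfl⟩
  obtain ⟨inn, hinn⟩ : ∃ inn : ι → HE n, inn = fun i => (v i, a i) := ⟨_, rfl⟩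
  have hoi : Function.Injective out := fun i j h => by
    rw [hout] at h
    exact hv (Prod.ext_iff.1 h).1
  have hii : Function.Injective inn := fun i j h => by
    rw [hinn] at h
    exact hv (Prod.ext_iff.1 h).1
  have hne : ∀ i j, out j ≠ inn i := by
    intro i j h
    rw [hout, hinn] at h
    have h1 := hv (Prod.ext_iff.1 h).1
    subst h1
    exact hab _ (Prod.ext_iff.1 h).2.symm
  obtain ⟨g, hg⟩ : ∃ g : HE n → HE n, g = Function.extend out (fun i => inn (s i))
    (Function.extend inn (fun i => out (s.symm i)) id) := ⟨_, rfl⟩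
  have g1 : ∀ i, g (out i) = inn (s i) := fun i => by
    rw [hg, hoi.extend_apply]
  have g2 : ∀ i, g (inn i) = out (s.symm i) := fun i => by
    rw [hg, Function.extend_apply' _ _ _ (fun ⟨j, hj⟩ => hne i j hj), hii.extend_apply]
  obtain ⟨F, hF⟩ : ∃ F : Finset (HE n), F = univ.image out ∪ univ.image inn := ⟨_, rfl⟩
  have hmem : ∀ x ∈ F, (∃ i, out i = x) ∨ ∃ i, inn i = x := by
    intro x hx
    rw [hF, mem_union, mem_image, mem_image] at hx
    rcases hx with ⟨i, -, h⟩ | ⟨i, -, h⟩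
    · exact Or.inl ⟨i, h⟩
    · exact Or.inr ⟨i, h⟩
  have ho : ∀ i, out i ∈ F := fun i => by
    rw [hF]; exact mem_union_left _ (mem_image_of_mem _ (mem_univ i))
  have hi : ∀ i, inn i ∈ F := fun i => by
    rw [hF]; exact mem_union_right _ (mem_image_of_mem _ (mem_univ i))
  have hcard : F.card = 2 * Fintype.card ι := by
    rw [hF, card_union_of_disjoint, card_image_of_injective _ hoi, card_image_of_injective _ hii,
      card_univ]
    · ring
    · rw [Finset.disjoint_left]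
      intro x h1 h2
      rw [mem_image] at h1 h2
      obtain ⟨i, -, h1⟩ := h1
      obtain ⟨j, -, h2⟩ := h2
      exact hne j i (h1.trans h2.symm)
  have key := hP (HE n) F g
    (fun x hx => by
      rcases hmem x hx with ⟨i, rfl⟩ | ⟨i, rfl⟩
      · rw [g1]; exact hi _
      · rw [g2]; exact ho _)
    (fun x hx => by
      rcases hmem x hx with ⟨i, rfl⟩ | ⟨i, rfl⟩
      · rw [g1, g2, Equiv.symm_apply_apply]
      · rw [g2, g1, Equiv.apply_symm_apply])
    (fun x hx => by
      rcases hmem x hx with ⟨i, rfl⟩ | ⟨i, rfl⟩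
      · rw [g1]; exact (hne _ _).symm
      · rw [g2]; exact hne _ _)
  rw [hcard, Fintype.card_prod, Fintype.card_fin, Fintype.card_fin, mul_comm n 3] at key
  rw [← key]
  refine congrArg Finset.card ?_
  ext M
  rw [hT, mem_filter]
  refine and_congr_right fun hM => ?_
  rw [mem_Mat] at hM
  have e1 : ∀ i, ((v i, b i) : HE n) = out i := fun i => by rw [hout]
  have e2 : ∀ i, ((v i, a i) : HE n) = inn i := fun i => by rw [hinn]
  simp only [e1, e2]
  constructor
  · intro h x hx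
    rcases hmem x hx with ⟨i, rfl⟩ | ⟨i, rfl⟩
    · rw [g1, h]
    · have h3 := h (s.symm i)
      rw [Equiv.apply_symm_apply] at h3
      rw [g2, ← h3, hM.1]
  · intro h i
    rw [h _ (ho i), g1]

/-- good data, as a product -/
def goodEquiv : {c : (ι → Fin n) × (ι → Fin 3) × (ι → Fin 3) // Good c} ≃
    (ι ↪ Fin n) × (ι → {p : Fin 3 × Fin 3 // p.1 ≠ p.2}) where
  toFun c := (⟨c.1.1, c.2.1⟩, fun i => ⟨(c.1.2.1 i, c.1.2.2 i), c.2.2 i⟩)
  invFun d := ⟨(d.1, fun i => (d.2 i).1.1, fun i => (d.2 i).1.2), d.1.injective,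
    fun i => (d.2 i).2⟩
  left_inv _ := rfl
  right_inv _ := rfl

open Classical in
theorem card_good [DecidableEq ι] : (univ.filter
    (fun c : (ι → Fin n) × (ι → Fin 3) × (ι → Fin 3) => Good c)).card =
    n.descFactorial (Fintype.card ι) * 6 ^ Fintype.card ι := by
  rw [← Fintype.card_subtype, Fintype.card_congr goodEquiv, Fintype.card_prod,
    Fintype.card_embedding_eq, Fintype.card_fin, Fintype.card_fun]
  congr 2

end general

theorem t_CYC1E (h : S_PRES) : S_CYC1E := by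
  classical
  intro k n
  have h1 : ∀ M : Equiv.Perm (HE n), (cycs k M).card = ∑ c : CD k n, if IsCyc M c then 1 else 0 := by
    intro M
    rw [← Finset.card_filter]
    refine congrArg Finset.card ?_
    ext c
    rw [mem_cycs, mem_filter, and_iff_right (mem_univ c)]
  simp only [h1]
  rw [Finset.sum_comm]
  have h2 : ∀ c : CD k n, (∑ M ∈ Mat (HE n), if IsCyc M c then 1 else 0) =
      if Good c then fm (3 * n - 2 * (k + 1)) else 0 := by
    intro c
    rw [← Finset.card_filter]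
    split_ifs with hc
    · have h3 := card_given h (Equiv.addRight (1 : Fin (k + 1))) c hc
        ((Mat (HE n)).filter fun M => IsCyc M c) (fun M => by
          rw [mem_filter]
          exact and_congr_right fun _ => ⟨fun h4 => h4.2.2, fun h4 => ⟨hc.1, hc.2, h4⟩⟩)
      rw [Fintype.card_fin] at h3
      exact h3
    · rw [card_eq_zero, filter_eq_empty_iff]
      intro M _ h4
      exact hc ⟨h4.1, h4.2.1⟩
  rw [sum_congr rfl fun c _ => h2 c, ← sum_filter, sum_const, card_good, Fintype.card_fin,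
    smul_eq_mul]

theorem t_DISJ (h : S_PRES) : S_DISJ := by
  classical
  intro k n
  obtain ⟨Q, hQ⟩ : ∃ Q : CD k n × CD k n → Prop, Q = fun p => Good p.1 ∧ Good p.2 ∧
    ∀ i j, p.1.1 i ≠ p.2.1 j := ⟨_, rfl⟩
  have h1 : ∀ M : Equiv.Perm (HE n), ((cycs k M ×ˢ cycs k M).filter
      (fun p => ∀ i j, p.1.1 i ≠ p.2.1 j)).card = ∑ p : CD k n × CD k n,
        if IsCyc M p.1 ∧ IsCyc M p.2 ∧ ∀ i j, p.1.1 i ≠ p.2.1 j then 1 else 0 := by
    intro M
    rw [← Finset.card_filter]
    refine congrArg Finset.card ?_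
    ext c
    rw [mem_filter, mem_filter, mem_product, mem_cycs, mem_cycs, and_iff_right (mem_univ c),
      and_assoc]
  simp only [h1]
  rw [Finset.sum_comm]
  obtain ⟨cb, hcb⟩ : ∃ cb : CD k n × CD k n → (Fin (k + 1) ⊕ Fin (k + 1) → Fin n) ×
      (Fin (k + 1) ⊕ Fin (k + 1) → Fin 3) × (Fin (k + 1) ⊕ Fin (k + 1) → Fin 3),
      cb = fun p => (Sum.elim p.1.1 p.2.1, Sum.elim p.1.2.1 p.2.2.1, Sum.elim p.1.2.2 p.2.2.2) :=
    ⟨_, rfl⟩
  have hgood : ∀ p, Q p → Good (cb p) := by
    intro p hp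
    rw [hQ] at hp
    rw [hcb]
    refine ⟨?_, ?_⟩
    · rintro (i | i) (j | j) hij
      · exact congrArg Sum.inl (hp.1.1 hij)
      · exact absurd hij (hp.2.2 i j)
      · exact absurd hij.symm (hp.2.2 j i)
      · exact congrArg Sum.inr (hp.2.1.1 hij)
    · rintro (i | i)
      · exact hp.1.2 i
      · exact hp.2.1.2 i
  have h2 : ∀ p : CD k n × CD k n, (∑ M ∈ Mat (HE n),
      if IsCyc M p.1 ∧ IsCyc M p.2 ∧ ∀ i j, p.1.1 i ≠ p.2.1 j then 1 else 0) =
      if Q p then fm (3 * n - 4 * (k + 1)) else 0 := by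
    intro p
    rw [← Finset.card_filter]
    split_ifs with hp
    · have h3 := card_given h (Equiv.sumCongr (Equiv.addRight (1 : Fin (k + 1)))
        (Equiv.addRight (1 : Fin (k + 1)))) (cb p) (hgood p hp)
        ((Mat (HE n)).filter fun M => IsCyc M p.1 ∧ IsCyc M p.2 ∧ ∀ i j, p.1.1 i ≠ p.2.1 j)
        (fun M => by
          rw [mem_filter]
          refine and_congr_right fun _ => ?_
          rw [hQ] at hp
          rw [hcb]
          constructor
          · intro h4
            rintro (i | i)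
            · exact h4.1.2.2 i
            · exact h4.2.1.2.2 i
          · intro h4
            exact ⟨⟨hp.1.1, hp.1.2, fun i => h4 (Sum.inl i)⟩,
              ⟨hp.2.1.1, hp.2.1.2, fun i => h4 (Sum.inr i)⟩, hp.2.2⟩)
      rw [Fintype.card_sum, Fintype.card_fin, show 2 * (k + 1 + (k + 1)) = 4 * (k + 1) by ring] at h3
      exact h3
    · rw [card_eq_zero, filter_eq_empty_iff]
      intro M _ h4
      apply hp
      rw [hQ]
      exact ⟨⟨h4.1.1, h4.1.2.1⟩, ⟨h4.2.1.1, h4.2.1.2.1⟩, h4.2.2⟩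
  rw [sum_congr rfl fun c _ => h2 c, ← sum_filter, sum_const, smul_eq_mul]
  refine Nat.mul_le_mul_right _ ?_
  have h3 : n.descFactorial (2 * (k + 1)) * 36 ^ (k + 1) = (univ.filter
      (fun c : (Fin (k + 1) ⊕ Fin (k + 1) → Fin n) × (Fin (k + 1) ⊕ Fin (k + 1) → Fin 3) ×
        (Fin (k + 1) ⊕ Fin (k + 1) → Fin 3) => Good c)).card := by
    rw [card_good, Fintype.card_sum, Fintype.card_fin, ← two_mul, pow_mul 6 2 (k + 1)]
    norm_num
  rw [h3]
  refine Finset.card_le_card_of_injOn cb ?_ ?_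
  · intro p hp
    rw [mem_coe, mem_filter] at hp
    rw [mem_coe, mem_filter]
    exact ⟨mem_univ _, hgood p hp.2⟩
  · rintro ⟨⟨v, a, b⟩, ⟨v', a', b'⟩⟩ - ⟨⟨w, c, d⟩, ⟨w', c', d'⟩⟩ - h4
    rw [hcb] at h4
    simp only [Prod.mk.injEq] at h4
    obtain ⟨h5, h6, h7⟩ := h4
    have e : ∀ {T : Type} {x y x' y' : Fin (k + 1) → T}, Sum.elim x y = Sum.elim x' y' →
        x = x' ∧ y = y' := by
      intro T x y x' y' h8
      exact ⟨funext fun i => congrFun h8 (Sum.inl i), funext fun i => congrFun h8 (Sum.inr i)⟩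
    obtain ⟨rfl, rfl⟩ := e h5
    obtain ⟨rfl, rfl⟩ := e h6
    obtain ⟨rfl, rfl⟩ := e h7
    rfl

theorem t_CYC1 (h : S_CYC1E) (h' : S_FMA) : S_CYC1 := by
  intro k
  have h1 := h' (k + 1)
  have h2 : Tendsto (fun m : ℕ => ((2 * m).descFactorial (k + 1) : ℝ) / ((2 * m : ℕ) : ℝ) ^ (k + 1))
      atTop (𝓝 1) := by
    have h3 : Tendsto (fun m : ℕ => ((m.descFactorial (k + 1) : ℕ) : ℝ) / (m : ℝ) ^ (k + 1))
        atTop (𝓝 1) := by
      have h4 := isEquivalent_descFactorial (k + 1)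
      have hz : ∀ᶠ x : ℕ in atTop, (x : ℝ) ^ (k + 1) ≠ 0 := by
        filter_upwards [eventually_gt_atTop 0] with x hx
        have : (0 : ℝ) < x := by exact_mod_cast hx
        positivity
      exact (Asymptotics.isEquivalent_iff_tendsto_one hz).1 h4
    exact h3.comp (tendsto_atTop_mono (fun m => by omega : ∀ m : ℕ, m ≤ 2 * m) tendsto_id)
  have h3 : ∀ᶠ m : ℕ in atTop, (((2 * m).descFactorial (k + 1) : ℝ) / ((2 * m : ℕ) : ℝ) ^ (k + 1)) *
      ((fm (6 * m - 2 * (k + 1)) : ℝ) * (6 * m : ℝ) ^ (k + 1) / fm (6 * m)) * 2 ^ (k + 1) =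
      (∑ M ∈ Mat (HE (2 * m)), ((cycs k M).card : ℝ)) / fm (6 * m) := by
    filter_upwards [eventually_gt_atTop 0] with m hm
    have h4 := h k (2 * m)
    rw [← Nat.cast_sum, h4, show 3 * (2 * m) = 6 * m by ring]
    have hm' : (0 : ℝ) < m := by exact_mod_cast hm
    have hf : (0 : ℝ) < fm (6 * m) := by
      rw [show 6 * m = 2 * (3 * m) by ring]
      exact_mod_cast fm_pos _
    push_cast
    field_simp
    ring
  have h4 := (h2.mul h1).mul_const (2 ^ (k + 1))
  rw [one_mul, one_mul] at h4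
  exact h4.congr' h3

end Pool.Agent.K1H33.CG
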