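import Pool.Agent.K1H77.CG.Stm

set_option autoImplicit false

/-!
# CG7: deterministic facts on cycles
-/

open Finset Filter Topology

namespace Pool.Agent.K1H33.CG

open Pool.Agent.K1H77.CG

variable {k n : ℕ}

theorem mem_FE {c : CD k n} {h : HE n} : h ∈ FE c ↔
    (∃ i, (c.1 i, c.2.2 i) = h) ∨ ∃ i, (c.1 i, c.2.1 i) = h := by
  simp only [FE, mem_union, mem_image, mem_univ, true_and]

open Fin.CommRing Fin.NatCast in
/-- an induction along the cycle -/
theorem cyc_ind {P : Fin (k + 1) → Prop} (i₀ : Fin (k + 1)) (h0 : P i₀)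
    (h : ∀ i, P i → P (i + 1)) (i : Fin (k + 1)) : P i := by
  have h1 : ∀ j : ℕ, P (i₀ + (j : Fin (k + 1))) := by
    intro j
    induction j with
    | zero => simpa using h0
    | succ j ih =>
      rw [Nat.cast_succ, ← add_assoc]
      exact h _ ih
  have h2 := h1 (i - i₀).val
  rwa [Fin.cast_val_eq_self, add_sub_cancel] at h2

theorem FE_closed {M : Equiv.Perm (HE n)} (hM : IsMat M) {c : CD k n} (hc : IsCyc M c) {h : HE n}
    (hh : h ∈ FE c) : M h ∈ FE c := by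
  rw [mem_FE] at hh ⊢
  rcases hh with ⟨i, rfl⟩ | ⟨i, rfl⟩
  · exact Or.inr ⟨i + 1, (hc.2.2 i).symm⟩
  · refine Or.inl ⟨i - 1, ?_⟩
    have h1 := hc.2.2 (i - 1)
    rw [sub_add_cancel] at h1
    rw [← h1, hM.1]

theorem at_vertex {c : CD k n} (hc : Function.Injective c.1) {j : Fin (k + 1)} {x : Fin 3}
    (h : (c.1 j, x) ∈ FE c) : x = c.2.2 j ∨ x = c.2.1 j := by
  rw [mem_FE] at h
  rcases h with ⟨i, hi⟩ | ⟨i, hi⟩
  · have h1 := hc (Prod.ext_iff.1 hi).1
    subst h1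
    exact Or.inl (Prod.ext_iff.1 hi).2.symm
  · have h1 := hc (Prod.ext_iff.1 hi).1
    subst h1
    exact Or.inr (Prod.ext_iff.1 hi).2.symm

theorem card_FE (c : CD k n) : (FE c).card ≤ 2 * (k + 1) := by
  unfold FE
  refine (card_union_le _ _).trans ?_
  have h1 : ∀ f : Fin (k + 1) → HE n, (univ.image f).card ≤ k + 1 := fun f =>
    card_image_le.trans_eq (by rw [card_univ, Fintype.card_fin])
  have h2 := h1 fun i => (c.1 i, c.2.2 i)
  have h3 := h1 fun i => (c.1 i, c.2.1 i)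
  omega

theorem eq_of {M : Equiv.Perm (HE n)} (hM : IsMat M) {c c' c'' : CD k n} (hc : IsCyc M c)
    (h1 : IsCyc M c') (h2 : IsCyc M c'') (h3 : ∀ i, (c'.1 i, c'.2.2 i) ∈ FE c)
    (h4 : ∀ i, (c''.1 i, c''.2.2 i) ∈ FE c)
    (h0 : ((c'.1 0, c'.2.2 0) : HE n) = (c''.1 0, c''.2.2 0)) : c' = c'' := by
  have hout : ∀ i, ((c'.1 i, c'.2.2 i) : HE n) = (c''.1 i, c''.2.2 i) := by
    intro i
    refine cyc_ind (P := fun i => ((c'.1 i, c'.2.2 i) : HE n) = (c''.1 i, c''.2.2 i)) 0 h0 ?_ i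
    intro i hi
    have h5 : ((c'.1 (i + 1), c'.2.1 (i + 1)) : HE n) = (c''.1 (i + 1), c''.2.1 (i + 1)) := by
      rw [← h1.2.2 i, ← h2.2.2 i, hi]
    have hv := (Prod.ext_iff.1 h5).1
    have ha := (Prod.ext_iff.1 h5).2
    dsimp only at hv ha
    have h6 : ((c'.1 (i + 1), c'.2.1 (i + 1)) : HE n) ∈ FE c := by
      rw [← h1.2.2 i]
      exact FE_closed hM hc (h3 i)
    have h7 := h3 (i + 1)
    have h8 := h4 (i + 1)
    have hn1 := h1.2.1 (i + 1)
    have hn2 := h2.2.1 (i + 1)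
    rw [← hv] at h8 ⊢
    rw [← ha] at hn2
    obtain ⟨j, hj⟩ : ∃ j, c.1 j = c'.1 (i + 1) := by
      have h9 := h7
      rw [mem_FE] at h9
      rcases h9 with ⟨j, hj⟩ | ⟨j, hj⟩
      · exact ⟨j, (Prod.ext_iff.1 hj).1⟩
      · exact ⟨j, (Prod.ext_iff.1 hj).1⟩
    rw [← hj] at h6 h7 h8 ⊢
    have e6 := at_vertex hc.1 h6
    have e7 := at_vertex hc.1 h7
    have e8 := at_vertex hc.1 h8
    have e : c'.2.2 (i + 1) = c''.2.2 (i + 1) := by
      rcases e6 with e6 | e6 <;> rcases e7 with e7 | e7 <;> rcases e8 with e8 | e8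
      · rw [e7, e8]
      · exact absurd (e6.trans e7.symm) hn1
      · exact absurd (e6.trans e8.symm) hn2
      · rw [e7, e8]
      · rw [e7, e8]
      · exact absurd (e6.trans e8.symm) hn2
      · exact absurd (e6.trans e7.symm) hn1
      · rw [e7, e8]
    rw [e]
  have hinn : ∀ i, ((c'.1 i, c'.2.1 i) : HE n) = (c''.1 i, c''.2.1 i) := by
    intro i
    have h5 : ((c'.1 (i - 1 + 1), c'.2.1 (i - 1 + 1)) : HE n) =
        (c''.1 (i - 1 + 1), c''.2.1 (i - 1 + 1)) := by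
      rw [← h1.2.2 (i - 1), ← h2.2.2 (i - 1), hout]
    rwa [sub_add_cancel] at h5
  refine Prod.ext (funext fun i => (Prod.ext_iff.1 (hout i)).1)
    (Prod.ext (funext fun i => (Prod.ext_iff.1 (hinn i)).2)
      (funext fun i => (Prod.ext_iff.1 (hout i)).2))

theorem t_SAME : S_SAME := by
  classical
  intro k n M hM c hc
  rw [mem_cycs] at hc
  refine le_trans ?_ (card_FE c)
  refine Finset.card_le_card_of_injOn (fun c' => (c'.1 0, c'.2.2 0)) ?_ ?_
  · intro c' hc'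
    rw [mem_coe, mem_filter] at hc'
    exact hc'.2 0
  · intro c' hc' c'' hc'' h
    rw [mem_coe, mem_filter, mem_cycs] at hc' hc''
    exact eq_of hM hc hc'.1 hc''.1 hc'.2 hc''.2 h

theorem t_NEW : S_NEW := by
  classical
  intro k n M A F c hM hF hA hc hmeet hex
  obtain ⟨N, hN⟩ : ∃ N : Finset (Fin (k + 1)), N = univ.filter (fun i => c.1 i ∉ A) := ⟨_, rfl⟩
  obtain ⟨E, hE⟩ : ∃ E : Finset (Fin (k + 1)),
    E = univ.filter (fun i => (c.1 i, c.2.2 i) ∉ F) := ⟨_, rfl⟩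
  have mN : ∀ i, i ∈ N ↔ c.1 i ∉ A := fun i => by
    rw [hN, mem_filter, and_iff_right (mem_univ i)]
  have mE : ∀ i, i ∈ E ↔ (c.1 i, c.2.2 i) ∉ F := fun i => by
    rw [hE, mem_filter, and_iff_right (mem_univ i)]
  have hNE : N ⊆ E := by
    intro i hi
    rw [mN] at hi
    rw [mE]
    exact fun h => hi (hA _ h)
  obtain ⟨i₁, hi₁E, hi₁N⟩ : ∃ i, i ∈ E ∧ i ∉ N := by
    rcases N.eq_empty_or_nonempty with h | ⟨j, hj⟩
    · obtain ⟨i, hi⟩ := hex
      exact ⟨i, (mE i).2 hi, by rw [h]; exact notMem_empty _⟩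
    · obtain ⟨i₀, hi₀⟩ := hmeet
      have h0 : i₀ ∉ N := fun h => (mN _).1 h hi₀
      by_contra hcon
      push Not at hcon
      refine cyc_ind (P := fun i => i ∉ N) i₀ h0 ?_ j hj
      intro i hi hi1
      apply hi
      apply hcon
      rw [mE]
      intro h
      have h2 := hF _ h
      rw [hc.2.2 i] at h2
      exact (mN _).1 hi1 (hA _ h2)
  have hcard : N.card + 1 ≤ E.card := by
    have h1 : insert i₁ N ⊆ E := insert_subset hi₁E hNE
    have h2 := card_le_card h1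
    rwa [card_insert_of_notMem hi₁N] at h2
  have himg : (univ.image c.1 \ A).card ≤ N.card := by
    refine (card_le_card (t := N.image c.1) ?_).trans card_image_le
    intro v hv
    rw [Finset.mem_sdiff, mem_image] at hv
    obtain ⟨⟨i, -, rfl⟩, h⟩ := hv
    exact mem_image_of_mem _ ((mN i).2 h)
  obtain ⟨O, hO⟩ : ∃ O : Finset (HE n), O = E.image (fun i => (c.1 i, c.2.2 i)) := ⟨_, rfl⟩
  obtain ⟨J, hJ⟩ : ∃ J : Finset (HE n), J = O.image M := ⟨_, rfl⟩
  have cO : O.card = E.card := by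
    rw [hO, card_image_of_injective]
    intro i j h
    exact hc.1 (Prod.ext_iff.1 h).1
  have cJ : J.card = E.card := by
    rw [hJ, card_image_of_injective _ M.injective, cO]
  have mO : ∀ x ∈ O, ∃ i ∈ E, (c.1 i, c.2.2 i) = x := fun x hx => by
    rw [hO, mem_image] at hx
    exact hx
  have mJ : ∀ x ∈ J, ∃ i ∈ E, M (c.1 i, c.2.2 i) = x := fun x hx => by
    rw [hJ, mem_image] at hx
    obtain ⟨y, hy, rfl⟩ := hx
    obtain ⟨i, hi, rfl⟩ := mO y hy
    exact ⟨i, hi, rfl⟩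
  have d1 : Disjoint O J := by
    rw [Finset.disjoint_left]
    intro x h1 h2
    obtain ⟨i, -, rfl⟩ := mO x h1
    obtain ⟨j, -, hj⟩ := mJ _ h2
    rw [hc.2.2 j] at hj
    have h3 := hc.1 (Prod.ext_iff.1 hj).1
    subst h3
    exact hc.2.1 _ (Prod.ext_iff.1 hj).2
  have d2 : Disjoint F (O ∪ J) := by
    rw [Finset.disjoint_right]
    intro x hx hxF
    rw [mem_union] at hx
    rcases hx with hx | hx
    · obtain ⟨i, hi, rfl⟩ := mO x hx
      exact (mE i).1 hi hxF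
    · obtain ⟨i, hi, rfl⟩ := mJ x hx
      have h3 := hF _ hxF
      rw [hM.1] at h3
      exact (mE i).1 hi h3
  have hsub : O ∪ J ⊆ FE c := by
    have h1 : ∀ x ∈ O, x ∈ FE c := fun x hx => by
      obtain ⟨i, -, rfl⟩ := mO x hx
      exact mem_FE.2 (Or.inl ⟨i, rfl⟩)
    refine union_subset h1 fun x hx => ?_
    rw [hJ, mem_image] at hx
    obtain ⟨y, hy, rfl⟩ := hx
    exact FE_closed hM hc (h1 y hy)
  have h1 : (F ∪ (O ∪ J)).card ≤ (F ∪ FE c).card :=
    card_le_card (union_subset_union (Subset.refl F) hsub)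
  rw [card_union_of_disjoint d2, card_union_of_disjoint d1, cO, cJ] at h1
  omega

end Pool.Agent.K1H33.CG
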